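import Pool.Agent.helper24.CG.Spec

/-!
# Rows cg, row ALG (algebra)
-/

set_option autoImplicit false

namespace Pool.Agent.helper24.CG

/-- first alternative -/
theorem ALG_one (lam Y K A y g κ : ℝ) (hlam : 0 < lam) (hY : 0 ≤ Y) (hK : 1 ≤ K)
    (hA : K ^ 2 ≤ A) (hκ : κ ≤ 4 * Y / K ^ 3) (hg1 : 1 / K ^ 2 ≤ g) (hg2 : g ≤ 1 / K)
    (h : lam * (g * (y - g / 2 - 1 / (2 * A))) ≤ g + κ) :
    y ≤ 1 / lam + (4 * Y / lam + 1) / K := by
  have hK0 : 0 < K := by linarith
  have hg : 0 < g := lt_of_lt_of_le (by positivity) hg1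
  have hA0 : 0 < A := lt_of_lt_of_le (by positivity) hA
  have h1 : κ ≤ 4 * Y / K * g := by
    calc κ ≤ 4 * Y / K ^ 3 := hκ
      _ = 4 * Y / K * (1 / K ^ 2) := by field_simp
      _ ≤ 4 * Y / K * g := mul_le_mul_of_nonneg_left hg1 (by positivity)
  have h2 : lam * (y - g / 2 - 1 / (2 * A)) ≤ 1 + 4 * Y / K := by
    have h3 : g * (lam * (y - g / 2 - 1 / (2 * A))) ≤ g * (1 + 4 * Y / K) := by
      calc g * (lam * (y - g / 2 - 1 / (2 * A)))
          = lam * (g * (y - g / 2 - 1 / (2 * A))) := by ring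
        _ ≤ g + κ := h
        _ ≤ g + 4 * Y / K * g := by linarith
        _ = g * (1 + 4 * Y / K) := by ring
    exact le_of_mul_le_mul_left h3 hg
  have h4 : y - g / 2 - 1 / (2 * A) ≤ (1 + 4 * Y / K) / lam := by
    rw [le_div_iff₀ hlam]
    linarith
  have h5 : 1 / (2 * A) ≤ 1 / (2 * K) := by
    apply one_div_le_one_div_of_le (by positivity)
    nlinarith
  have h6 : (1 + 4 * Y / K) / lam + (1 / K) / 2 + 1 / (2 * K) =
      1 / lam + (4 * Y / lam + 1) / K := by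
    field_simp
    ring
  linarith

/-- second alternative -/
theorem ALG_two (lam Y K A y g κ b e E M : ℝ) (hY : 0 ≤ Y) (hK : 1 ≤ K)
    (hb : 0 < b) (hA : K ^ 2 ≤ A) (hκ : κ ≤ 4 * Y / K ^ 3) (hE : 0 ≤ E) (he : e ≤ E / K ^ 2)
    (hM1 : 1 ≤ M * lam) (hM2 : 1 ≤ M * (b / 2)) (hM : 0 ≤ M)
    (hg1 : 1 / K < g) (hg2 : g ≤ y) (hyY : y ≤ Y)
    (h : lam * (g * (y - g)) + b * (1 - 1 / (2 * K)) * (g * (g - 1 / A) / 2 - e) ≤ g + κ) :
    y ≤ M + M * (4 * Y + b * Y / 4 + b / 2 + b * E) / K := by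
  have hK0 : 0 < K := by linarith
  have hg : 0 < g := lt_of_le_of_lt (by positivity) hg1
  have hA0 : 0 < A := lt_of_lt_of_le (by positivity) hA
  have hf1 : 1 - 1 / (2 * K) ≤ 1 := by
    have : 0 ≤ 1 / (2 * K) := by positivity
    linarith
  have hf0 : 0 ≤ 1 - 1 / (2 * K) := by
    have : 1 / (2 * K) ≤ 1 := by
      rw [div_le_one (by positivity)]
      linarith
    linarith
  have h1 : κ ≤ 4 * Y / K * g := by
    calc κ ≤ 4 * Y / K ^ 3 := hκ
      _ = 4 * Y / K ^ 2 * (1 / K) := by field_simp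
      _ ≤ 4 * Y / K * g := by
          apply mul_le_mul _ hg1.le (by positivity) (by positivity)
          apply div_le_div_of_nonneg_left (by positivity) hK0
          nlinarith
  have h2 : e ≤ E / K * g := by
    calc e ≤ E / K ^ 2 := he
      _ = E / K * (1 / K) := by field_simp
      _ ≤ E / K * g := mul_le_mul_of_nonneg_left hg1.le (by positivity)
  have h3 : b * (1 - 1 / (2 * K)) * e ≤ b * (E / K * g) := by
    calc b * (1 - 1 / (2 * K)) * e ≤ b * (1 - 1 / (2 * K)) * (E / K * g) :=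
          mul_le_mul_of_nonneg_left h2 (by positivity)
      _ = (1 - 1 / (2 * K)) * (b * (E / K * g)) := by ring
      _ ≤ 1 * (b * (E / K * g)) := mul_le_mul_of_nonneg_right hf1 (by positivity)
      _ = b * (E / K * g) := one_mul _
  have h4 : lam * (y - g) + b * (1 - 1 / (2 * K)) * ((g - 1 / A) / 2) ≤
      1 + 4 * Y / K + b * (E / K) := by
    have h5 : g * (lam * (y - g) + b * (1 - 1 / (2 * K)) * ((g - 1 / A) / 2)) ≤
        g * (1 + 4 * Y / K + b * (E / K)) := by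
      have e1 : lam * (g * (y - g)) + b * (1 - 1 / (2 * K)) * (g * (g - 1 / A) / 2 - e) =
          g * (lam * (y - g) + b * (1 - 1 / (2 * K)) * ((g - 1 / A) / 2)) -
            b * (1 - 1 / (2 * K)) * e := by ring
      rw [e1] at h
      have e2 : g * (1 + 4 * Y / K + b * (E / K)) = g + 4 * Y / K * g + b * (E / K * g) := by
        ring
      rw [e2]
      linarith
    exact le_of_mul_le_mul_left h5 hg
  have h6 : b * g / 2 - b * Y / (4 * K) - b / (2 * K) ≤
      b * (1 - 1 / (2 * K)) * ((g - 1 / A) / 2) := by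
    have e1 : b * (1 - 1 / (2 * K)) * ((g - 1 / A) / 2) =
        b * g / 2 - b * g / (4 * K) - (1 - 1 / (2 * K)) * (b / (2 * A)) := by
      field_simp
      ring
    have e2 : (1 - 1 / (2 * K)) * (b / (2 * A)) ≤ b / (2 * K) := by
      calc (1 - 1 / (2 * K)) * (b / (2 * A)) ≤ 1 * (b / (2 * A)) :=
            mul_le_mul_of_nonneg_right hf1 (by positivity)
        _ = b / (2 * A) := one_mul _
        _ ≤ b / (2 * K) := by
            apply div_le_div_of_nonneg_left hb.le (by positivity)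
            nlinarith
    have e3 : b * g / (4 * K) ≤ b * Y / (4 * K) := by
      apply div_le_div_of_nonneg_right _ (by positivity)
      exact mul_le_mul_of_nonneg_left (hg2.trans hyY) hb.le
    rw [e1]
    linarith
  have h7 : lam * (y - g) + b * g / 2 ≤ 1 + (4 * Y + b * Y / 4 + b / 2 + b * E) / K := by
    have e1 : 1 + (4 * Y + b * Y / 4 + b / 2 + b * E) / K =
        1 + 4 * Y / K + b * (E / K) + b * Y / (4 * K) + b / (2 * K) := by
      field_simp
      ring
    rw [e1]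
    linarith
  have h8 : y ≤ M * (lam * (y - g) + b * g / 2) := by
    have e1 : 1 * (y - g) ≤ M * lam * (y - g) :=
      mul_le_mul_of_nonneg_right hM1 (by linarith)
    have e2 : 1 * g ≤ M * (b / 2) * g := mul_le_mul_of_nonneg_right hM2 hg.le
    nlinarith
  calc y ≤ M * (lam * (y - g) + b * g / 2) := h8
    _ ≤ M * (1 + (4 * Y + b * Y / 4 + b / 2 + b * E) / K) := mul_le_mul_of_nonneg_left h7 hM
    _ = M + M * (4 * Y + b * Y / 4 + b / 2 + b * E) / K := by ring

theorem ALG : ALG_stmt := by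
  intro b hb
  have hb0 : (0 : ℝ) < (b : ℝ) := by exact_mod_cast hb
  have hlam : 0 < Real.log (1 + (b : ℝ)) := Real.log_pos (by linarith)
  generalize hlamdef : Real.log (1 + (b : ℝ)) = lam at hlam
  have hY : 0 ≤ 10 / lam + 1 := by positivity
  have hY1 : 1 ≤ 10 / lam + 1 := by
    have : 0 ≤ 10 / lam := by positivity
    linarith
  generalize hYdef : 10 / lam + 1 = Y at hY hY1
  have hM1 : 1 ≤ max (2 / (b : ℝ)) (1 / lam) * lam := by
    calc (1 : ℝ) = 1 / lam * lam := by field_simp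
      _ ≤ max (2 / (b : ℝ)) (1 / lam) * lam :=
          mul_le_mul_of_nonneg_right (le_max_right _ _) hlam.le
  have hM2 : 1 ≤ max (2 / (b : ℝ)) (1 / lam) * ((b : ℝ) / 2) := by
    calc (1 : ℝ) = 2 / (b : ℝ) * ((b : ℝ) / 2) := by field_simp
      _ ≤ max (2 / (b : ℝ)) (1 / lam) * ((b : ℝ) / 2) :=
          mul_le_mul_of_nonneg_right (le_max_left _ _) (by positivity)
  have hM : 0 ≤ max (2 / (b : ℝ)) (1 / lam) := le_trans (by positivity) (le_max_left _ _)
  have hM3 : 1 / lam ≤ max (2 / (b : ℝ)) (1 / lam) := le_max_right _ _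
  generalize hMdef : max (2 / (b : ℝ)) (1 / lam) = M at hM1 hM2 hM hM3
  have hE : 0 ≤ Y ^ 2 * b / 4 + 1 + (1 + 4 * Y) / lam := by positivity
  generalize hEdef : Y ^ 2 * b / 4 + 1 + (1 + 4 * Y) / lam = E at hE
  refine ⟨(4 * Y / lam + 1) + M * (4 * Y + b * Y / 4 + b / 2 + b * E), by positivity, ?_⟩
  intro k m q ℓ x Rr hk hkm hℓ hkA hx hq1 hq2 hR0 hR hyp1 hyp2
  have hK : (1 : ℝ) ≤ (k : ℝ) := by exact_mod_cast hk
  have hmK : (k : ℝ) ^ 9 ≤ (m : ℝ) := by exact_mod_cast hkm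
  generalize hKdef : (k : ℝ) = K at *
  have hK0 : 0 < K := by linarith
  have hm1 : (1 : ℝ) ≤ (m : ℝ) := (one_le_pow₀ hK).trans hmK
  generalize hmdef : (m : ℝ) = μ at *
  have hμ : 0 < μ := by linarith
  have hℓ0 : 0 < ℓ := by linarith
  obtain ⟨A, hAdef⟩ : ∃ A, A = μ * ℓ := ⟨_, rfl⟩
  have hA0 : 0 < A := by rw [hAdef]; positivity
  have hA : K ^ 2 ≤ A := by rw [hAdef]; exact hkA
  have hA1 : 1 ≤ A := (one_le_pow₀ hK).trans hA
  obtain ⟨y, hydef⟩ : ∃ y, y = q / A := ⟨_, rfl⟩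
  have hq : q = y * A := by rw [hydef]; field_simp
  obtain ⟨κ, hκdef⟩ : ∃ κ, κ = Rr / (A * ℓ) := ⟨_, rfl⟩
  have hRr : Rr = κ * (A * ℓ) := by rw [hκdef]; field_simp
  have hκ0 : 0 ≤ κ := by rw [hκdef]; positivity
  have hAℓ : 0 < A * ℓ := by positivity
  have hxy : x ≤ y := by
    rw [hq] at hq1
    have : x * A ≤ y * A := by
      calc x * A = x * μ * ℓ := by rw [hAdef]; ring
        _ ≤ y * A := hq1
    exact le_of_mul_le_mul_right this hA0
  have hy0 : 0 < y := by linarith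
  have hκ : κ ≤ 4 * x / K ^ 3 := by
    have : κ * (A * ℓ) ≤ 4 * x / K ^ 3 * (A * ℓ) := by
      calc κ * (A * ℓ) = Rr := hRr.symm
        _ ≤ 4 * x / K ^ 3 * μ * ℓ ^ 2 := hR
        _ = 4 * x / K ^ 3 * (A * ℓ) := by rw [hAdef]; ring
    exact le_of_mul_le_mul_right this hAℓ
  have hK3 : 1 ≤ K ^ 3 := one_le_pow₀ hK
  have hκ4 : κ ≤ 4 * y := by
    calc κ ≤ 4 * x / K ^ 3 := hκ
      _ ≤ 4 * x / 1 := div_le_div_of_nonneg_left (by positivity) one_pos hK3
      _ ≤ 4 * y := by linarith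
  -- bound for y
  have hyY : y ≤ Y := by
    have e1 : lam / μ * (q * (q - 1) / 2) = (A * ℓ) * (lam * y * (y - 1 / A) / 2) := by
      rw [hq, hAdef]
      field_simp
    have e2 : q * ℓ + Rr = (A * ℓ) * (y + κ) := by
      rw [hq, hRr]
      ring
    rw [e1, e2] at hyp1
    have h1 := le_of_mul_le_mul_left hyp1 hAℓ
    have h2 : y * (lam * (y - 1 / A) / 2) ≤ y * 5 := by linarith
    have h3 := le_of_mul_le_mul_left h2 hy0
    have h4 : y - 1 / A ≤ 10 / lam := by
      rw [le_div_iff₀ hlam]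
      linarith
    have h5 : 1 / A ≤ 1 := by
      rw [div_le_one hA0]
      exact hA1
    linarith
  have hκY : κ ≤ 4 * Y / K ^ 3 := by
    refine hκ.trans ?_
    apply div_le_div_of_nonneg_right _ (by positivity)
    linarith
  have hC1 : 0 ≤ 4 * Y / lam + 1 := by positivity
  have hC2 : 0 ≤ M * (4 * Y + b * Y / 4 + b / 2 + b * E) := by positivity
  rcases hyp2 with ⟨γ, hγ1, hγ2, hγ⟩ | ⟨γ, hγ1, hγ2, hγ⟩
  · obtain ⟨g, hgdef⟩ : ∃ g, g = γ / A := ⟨_, rfl⟩
    have hγg : γ = g * A := by rw [hgdef]; field_simp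
    have hg1 : 1 / K ^ 2 ≤ g := by
      rw [hgdef, le_div_iff₀ hA0]
      calc 1 / K ^ 2 * A = μ * ℓ / K ^ 2 := by rw [hAdef]; ring
        _ ≤ γ := hγ1
    have hg2 : g ≤ 1 / K := by
      rw [hgdef, div_le_iff₀ hA0]
      calc γ ≤ μ * ℓ / K := hγ2
        _ = 1 / K * A := by rw [hAdef]; ring
    have e1 : lam / μ * (γ * (q - γ / 2 - 1 / 2)) =
        (A * ℓ) * (lam * (g * (y - g / 2 - 1 / (2 * A)))) := by
      rw [hq, hγg, hAdef]
      field_simp
    have e2 : γ * ℓ + Rr = (A * ℓ) * (g + κ) := by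
      rw [hγg, hRr]
      ring
    rw [e1, e2] at hγ
    have h1 := le_of_mul_le_mul_left hγ hAℓ
    have h2 := ALG_one lam Y K A y g κ hlam hY hK hA hκY hg1 hg2 h1
    have h3 : (4 * Y / lam + 1) / K ≤
        ((4 * Y / lam + 1) + M * (4 * Y + b * Y / 4 + b / 2 + b * E)) / K := by
      apply div_le_div_of_nonneg_right _ hK0.le
      linarith
    linarith
  · obtain ⟨g, hgdef⟩ : ∃ g, g = γ / A := ⟨_, rfl⟩
    have hγg : γ = g * A := by rw [hgdef]; field_simp
    have hg1 : 1 / K < g := by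
      rw [hgdef, lt_div_iff₀ hA0]
      calc 1 / K * A = μ * ℓ / K := by rw [hAdef]; ring
        _ < γ := hγ1
    have hg2 : g ≤ y := by
      rw [hgdef, hydef]
      exact div_le_div_of_nonneg_right hγ2 hA0.le
    obtain ⟨e, hedef⟩ : ∃ e, e = y ^ 2 * K ^ 7 * b / (4 * μ) + μ / A ^ 2 +
        (1 / K ^ 2 + κ) / lam := ⟨_, rfl⟩
    have he : e ≤ E / K ^ 2 := by
      have s1 : y ^ 2 * K ^ 7 * b / (4 * μ) ≤ (Y ^ 2 * b / 4) / K ^ 2 := by
        rw [div_le_div_iff₀ (by positivity) (by positivity)]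
        have t1 : y ^ 2 ≤ Y ^ 2 := by nlinarith
        calc y ^ 2 * K ^ 7 * b * K ^ 2 = y ^ 2 * (b * K ^ 9) := by ring
          _ ≤ Y ^ 2 * (b * μ) := by
              apply mul_le_mul t1 _ (by positivity) (by positivity)
              exact mul_le_mul_of_nonneg_left hmK hb0.le
          _ = Y ^ 2 * b / 4 * (4 * μ) := by ring
      have s2 : μ / A ^ 2 ≤ 1 / K ^ 2 := by
        rw [div_le_div_iff₀ (by positivity) (by positivity)]
        have t1 : μ ≤ A := by
          rw [hAdef]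
          nlinarith
        calc μ * K ^ 2 ≤ A * A := mul_le_mul t1 hA (by positivity) hA0.le
          _ = 1 * A ^ 2 := by ring
      have s3 : (1 / K ^ 2 + κ) / lam ≤ ((1 + 4 * Y) / lam) / K ^ 2 := by
        have t1 : κ ≤ 4 * Y / K ^ 2 := by
          refine hκY.trans ?_
          apply div_le_div_of_nonneg_left (by positivity) (by positivity)
          exact pow_le_pow_right₀ hK (by norm_num)
        have t2 : ((1 + 4 * Y) / lam) / K ^ 2 = (1 / K ^ 2 + 4 * Y / K ^ 2) / lam := by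
          field_simp
        rw [t2]
        apply div_le_div_of_nonneg_right _ hlam.le
        linarith
      calc e = y ^ 2 * K ^ 7 * b / (4 * μ) + μ / A ^ 2 + (1 / K ^ 2 + κ) / lam := hedef
        _ ≤ (Y ^ 2 * b / 4) / K ^ 2 + 1 / K ^ 2 + ((1 + 4 * Y) / lam) / K ^ 2 := by
            linarith
        _ = E / K ^ 2 := by
            rw [← hEdef]
            ring
    have e1 : lam / μ * (γ * (q - γ)) +
        (b : ℝ) * (1 - (b : ℝ) * ((b : ℝ) * K)⁻¹ / 2) / μ * (γ * (γ - 1) / 2 -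
          (q ^ 2 * ((k ^ 3 : ℕ) : ℝ) ^ 2 / (4 * ((b : ℝ) * K)⁻¹ * μ) + μ +
            (μ * ℓ / K ^ 2 * ℓ + Rr) * μ / lam)) =
        (A * ℓ) * (lam * (g * (y - g)) +
          b * (1 - 1 / (2 * K)) * (g * (g - 1 / A) / 2 - e)) := by
      rw [hedef, hq, hγg, hRr, hAdef]
      push_cast
      rw [hKdef]
      field_simp
    have e2 : γ * ℓ + Rr = (A * ℓ) * (g + κ) := by
      rw [hγg, hRr]
      ring
    rw [e1, e2] at hγ
    have h1 := le_of_mul_le_mul_left hγ hAℓ
    have h2 := ALG_two lam Y K A y g κ b e E M hY hK hb0 hA hκY hE he hM1 hM2 hM hg1 hg2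
      hyY h1
    have h3 : M * (4 * Y + b * Y / 4 + b / 2 + b * E) / K ≤
        ((4 * Y / lam + 1) + M * (4 * Y + b * Y / 4 + b / 2 + b * E)) / K := by
      apply div_le_div_of_nonneg_right _ hK0.le
      linarith
    linarith

end Pool.Agent.helper24.CG
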